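import Pool.Agent.TH43.LR.Struct

/-!
# Lehmer numbers and the size of their largest prime factor
-/

set_option autoImplicit false

namespace Pool.Agent.TH43.LR

open Finset Pool.Agent.H95R2.Leh Pool.Agent.TH43.LQ

open Classical in
/-- Lehmer numbers up to `x` with largest prime factor `p ≥ x^ε` such that for every `t ≥ 2`
`p^(2t+1)` is not close to `x` or at most `t + 1` prime factors are close to `p` -/
noncomputable def RR (x : ℕ) (ε : ℝ) : Finset ℕ :=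
  (Icc 1 x).filter (fun n : ℕ => Leh n ∧ ∃ p : ℕ, p.Prime ∧ p ∣ n ∧
    (∀ r : ℕ, r.Prime → r ∣ n → r ≤ p) ∧ (x : ℝ) ^ ε ≤ (p : ℝ) ∧
    ∀ t : ℕ, 2 ≤ t → (p : ℝ) ^ (2 * t + 1) ≤ (x : ℝ) ^ (1 - ε) ∨
      (x : ℝ) ^ (1 + ε) ≤ (p : ℝ) ^ (2 * t + 1) ∨
      (n.primeFactors.filter (fun r : ℕ => (p : ℝ) * (x : ℝ) ^ (-ε) < r)).card ≤ t + 1)

open Classical in
theorem leh_small (θ : ℝ) (hθ : 0 < θ) (hθ1 : θ ≤ 1 / 2) : ∃ C : ℝ, 0 < C ∧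
    ∀ x : ℕ, 1 ≤ x → ((((Icc 1 ⌊(x : ℝ) ^ (1 - θ)⌋₊).filter Leh).card : ℕ) : ℝ) ≤
      C * (x : ℝ) ^ (1 / 2 - θ / 4) := by
  obtain ⟨C2, hC2, hleh⟩ := leh_light
  obtain ⟨C4, hC4, hlog4⟩ := Pool.Agent.TH43.LK.log_pow_le 3 (θ / 4) (by positivity)
  refine ⟨C2 * C4, by positivity, ?_⟩
  intro x hx
  have hX1 : (1 : ℝ) ≤ (x : ℝ) := by exact_mod_cast hx
  have hXp : (0 : ℝ) < (x : ℝ) := by linarith
  obtain ⟨x', hx'⟩ : ∃ x' : ℕ, x' = ⌊(x : ℝ) ^ (1 - θ)⌋₊ := ⟨_, rfl⟩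
  rw [← hx']
  have hx'hi : (x' : ℝ) ≤ (x : ℝ) ^ (1 - θ) := by
    rw [hx']; exact Nat.floor_le (by positivity)
  have hx'1 : 1 ≤ x' := by
    rw [hx']
    apply Nat.le_floor
    push_cast
    exact Real.one_le_rpow hX1 (by linarith)
  have h5 := hleh x' hx'1
  have hx'0 : (0 : ℝ) < (x' : ℝ) := by exact_mod_cast hx'1
  have hx'x : (x' : ℝ) ≤ (x : ℝ) := by
    refine hx'hi.trans ?_
    calc (x : ℝ) ^ (1 - θ) ≤ (x : ℝ) ^ (1 : ℝ) :=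
          Real.rpow_le_rpow_of_exponent_le hX1 (by linarith)
      _ = x := Real.rpow_one _
  have h6 : Real.log (x' : ℝ) ≤ Real.log (x : ℝ) := Real.log_le_log hx'0 hx'x
  have h60 : 0 ≤ Real.log (x' : ℝ) := Real.log_natCast_nonneg x'
  have h7 : (1 + Real.log (x' : ℝ)) ^ 3 ≤ C4 * (x : ℝ) ^ (θ / 4) :=
    (pow_le_pow_left₀ (by linarith) (by linarith) 3).trans (hlog4 x hX1)
  have h8 : Real.sqrt (x' : ℝ) ≤ (x : ℝ) ^ (1 / 2 - θ / 2) := by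
    calc Real.sqrt (x' : ℝ) ≤ Real.sqrt ((x : ℝ) ^ (1 - θ)) := Real.sqrt_le_sqrt hx'hi
      _ = (x : ℝ) ^ ((1 - θ) * (1 / 2)) := by
          rw [Real.sqrt_eq_rpow, ← Real.rpow_mul hXp.le]
      _ = _ := by congr 1; ring
  refine h5.trans ?_
  calc C2 * (1 + Real.log (x' : ℝ)) ^ 3 * Real.sqrt (x' : ℝ) ≤
      C2 * (C4 * (x : ℝ) ^ (θ / 4)) * (x : ℝ) ^ (1 / 2 - θ / 2) := by
        apply mul_le_mul _ h8 (Real.sqrt_nonneg _) (by positivity)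
        exact mul_le_mul_of_nonneg_left h7 hC2.le
    _ = C2 * C4 * ((x : ℝ) ^ (θ / 4) * (x : ℝ) ^ (1 / 2 - θ / 2)) := by ring
    _ = _ := by
        rw [rq hXp (show θ / 4 + (1 / 2 - θ / 2) = 1 / 2 - θ / 4 by ring)]

theorem aa_small : ∃ C X0 : ℝ, 0 < C ∧ 1 ≤ X0 ∧ ∀ x : ℕ, X0 ≤ (x : ℝ) →
    ((Pool.Agent.TH43.LK.AA x ⌊(x : ℝ) ^ (3 / 10 : ℝ)⌋₊).card : ℝ) ≤
      C * (x : ℝ) ^ (29 / 60 : ℝ) := by
  obtain ⟨C1, hC1, haa⟩ := Pool.Agent.TH43.LK.main_one (1 / 60) (by norm_num)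
  obtain ⟨X3, hX3, habs3⟩ := absorb 16 (by norm_num) 0 (1 / 5) (by norm_num)
  refine ⟨2 * C1, X3, by positivity, hX3, ?_⟩
  intro x hX
  have hX1' : (1 : ℝ) ≤ (x : ℝ) := hX3.trans hX
  have hXp : (0 : ℝ) < (x : ℝ) := by linarith
  have h16 : 16 ≤ (x : ℝ) ^ (1 / 5 : ℝ) := by
    have := habs3 x hX
    rwa [pow_zero, mul_one] at this
  obtain ⟨y1, hy1⟩ : ∃ y1 : ℕ, y1 = ⌊(x : ℝ) ^ (3 / 10 : ℝ)⌋₊ := ⟨_, rfl⟩
  rw [← hy1]
  have hx310 : 16 ≤ (x : ℝ) ^ (3 / 10 : ℝ) := h16.trans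
    (Real.rpow_le_rpow_of_exponent_le hX1' (by norm_num))
  have hy1lo : (x : ℝ) ^ (3 / 10 : ℝ) ≤ 2 * (y1 : ℝ) := by
    have h5 := Nat.lt_floor_add_one ((x : ℝ) ^ (3 / 10 : ℝ))
    rw [← hy1] at h5
    linarith
  have hy10 : (0 : ℝ) < y1 := by linarith
  have hy1_one : 1 ≤ y1 := by exact_mod_cast hy10
  have hxy : x ≤ y1 ^ 4 := by
    have h5 : (x : ℝ) ≤ (y1 : ℝ) ^ 4 := by
      have h6 := pow_le_pow_left₀ (by positivity) hy1lo 4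
      have h7 : ((x : ℝ) ^ (3 / 10 : ℝ)) ^ 4 = (x : ℝ) * (x : ℝ) ^ (1 / 5 : ℝ) := by
        rw [← Real.rpow_natCast, ← Real.rpow_mul hXp.le]
        push_cast
        rw [show (3 / 10 : ℝ) * 4 = 1 + 1 / 5 by norm_num, Real.rpow_add hXp, Real.rpow_one]
      rw [h7] at h6
      have h8 : (x : ℝ) * 16 ≤ (x : ℝ) * (x : ℝ) ^ (1 / 5 : ℝ) :=
        mul_le_mul_of_nonneg_left h16 hXp.le
      have h9 : (2 * (y1 : ℝ)) ^ 4 = 16 * (y1 : ℝ) ^ 4 := by ring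
      rw [h9] at h6
      linarith
    exact_mod_cast h5
  refine (haa x y1 hy1_one hxy).trans ?_
  have h5 : (x : ℝ) / y1 ≤ 2 * (x : ℝ) ^ (7 / 10 : ℝ) := by
    rw [div_le_iff₀ hy10]
    calc (x : ℝ) = (x : ℝ) ^ (7 / 10 : ℝ) * (x : ℝ) ^ (3 / 10 : ℝ) := by
          rw [rq hXp (show (7 / 10 : ℝ) + 3 / 10 = 1 by norm_num), Real.rpow_one]
      _ ≤ (x : ℝ) ^ (7 / 10 : ℝ) * (2 * y1) := mul_le_mul_of_nonneg_left hy1lo (by positivity)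
      _ = _ := by ring
  have h6 : ((x : ℝ) / y1) ^ (2 / 3 : ℝ) ≤ 2 * (x : ℝ) ^ (7 / 15 : ℝ) := by
    calc ((x : ℝ) / y1) ^ (2 / 3 : ℝ) ≤ (2 * (x : ℝ) ^ (7 / 10 : ℝ)) ^ (2 / 3 : ℝ) :=
          Real.rpow_le_rpow (by positivity) h5 (by norm_num)
      _ = (2 : ℝ) ^ (2 / 3 : ℝ) * (x : ℝ) ^ (7 / 15 : ℝ) := by
          rw [Real.mul_rpow (by norm_num) (by positivity), ← Real.rpow_mul hXp.le]
          norm_num
      _ ≤ (2 : ℝ) ^ (1 : ℝ) * (x : ℝ) ^ (7 / 15 : ℝ) := by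
          apply mul_le_mul_of_nonneg_right _ (by positivity)
          exact Real.rpow_le_rpow_of_exponent_le (by norm_num) (by norm_num)
      _ = _ := by rw [Real.rpow_one]
  calc C1 * (x : ℝ) ^ (1 / 60 : ℝ) * ((x : ℝ) / y1) ^ (2 / 3 : ℝ) ≤
      C1 * (x : ℝ) ^ (1 / 60 : ℝ) * (2 * (x : ℝ) ^ (7 / 15 : ℝ)) :=
        mul_le_mul_of_nonneg_left h6 (by positivity)
    _ = 2 * C1 * ((x : ℝ) ^ (1 / 60 : ℝ) * (x : ℝ) ^ (7 / 15 : ℝ)) := by ring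
    _ = 2 * C1 * (x : ℝ) ^ (29 / 60 : ℝ) := by
        rw [rq hXp (show (1 / 60 : ℝ) + 7 / 15 = 29 / 60 by norm_num)]

open Classical in
theorem RR_sub (ε η : ℝ) (hη : 0 < η) (hη1 : η ≤ 1 / 20) (hηε : 2 * η ≤ ε) (x : ℕ) (hx : 2 ≤ x) :
    RR x ε ⊆ ((Icc 1 ⌊(x : ℝ) ^ (1 - η / 8)⌋₊).filter Leh ∪
      Pool.Agent.TH43.LK.AA x ⌊(x : ℝ) ^ (3 / 10 : ℝ)⌋₊) ∪
      (QQ x (η ^ 2 / 16) ∪ WB x (η / 4)) := by
  intro n hn
  unfold RR at hn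
  rw [mem_filter, mem_Icc] at hn
  obtain ⟨⟨hn1, hnx⟩, hL, p, hp, hpn, hmax, hplo, hcond⟩ := hn
  have hX1 : (1 : ℝ) < (x : ℝ) := by exact_mod_cast hx
  have hX1' : (1 : ℝ) ≤ (x : ℝ) := hX1.le
  have hXp : (0 : ℝ) < (x : ℝ) := by linarith
  rw [mem_union]
  rcases le_or_gt (n : ℝ) ((x : ℝ) ^ (1 - η / 8)) with h1 | h1
  · left
    rw [mem_union]
    left
    rw [mem_filter, mem_Icc]
    exact ⟨⟨hn1, Nat.le_floor h1⟩, hL⟩
  rcases lt_or_ge ((x : ℝ) ^ (3 / 10 : ℝ)) (p : ℝ) with h2 | h2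
  · left
    rw [mem_union]
    right
    unfold Pool.Agent.TH43.LK.AA
    rw [mem_filter, mem_Icc]
    exact ⟨⟨hn1, hnx⟩, hL, p, hp, hpn, (Nat.floor_lt (by positivity)).2 h2⟩
  · right
    apply struct η hη hη1 x n p hx hL hnx h1.le hp hpn hmax
      ((Real.rpow_le_rpow_of_exponent_le hX1' hηε).trans hplo) h2
    intro t ht
    rcases hcond t ht with h3 | h3 | h3
    · exact Or.inl (h3.trans (Real.rpow_le_rpow_of_exponent_le hX1' (by linarith)))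
    · exact Or.inr (Or.inl ((Real.rpow_le_rpow_of_exponent_le hX1' (by linarith)).trans h3))
    · refine Or.inr (Or.inr ((card_le_card ?_).trans h3))
      intro r hr
      rw [mem_filter] at hr ⊢
      refine ⟨hr.1, lt_of_le_of_lt ?_ hr.2⟩
      apply mul_le_mul_of_nonneg_left _ (Nat.cast_nonneg _)
      exact Real.rpow_le_rpow_of_exponent_le hX1' (by linarith)

theorem main_r (ε : ℝ) (hε : 0 < ε) : ∃ δ C : ℝ, 0 < δ ∧ 0 < C ∧ ∀ x : ℕ,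
    ((RR x ε).card : ℝ) ≤ C * (x : ℝ) ^ (1 / 2 - δ) := by
  classical
  obtain ⟨η, hη, hη1, hηε⟩ : ∃ η : ℝ, 0 < η ∧ η ≤ 1 / 20 ∧ 2 * η ≤ ε :=
    ⟨min (ε / 2) (1 / 20), lt_min (by positivity) (by norm_num), min_le_right _ _, by
      have := min_le_left (ε / 2) (1 / 20)
      linarith⟩
  obtain ⟨C1, hC1, hp1⟩ := leh_small (η / 8) (by positivity) (by linarith)
  obtain ⟨C2, X2, hC2, hX2, hp2⟩ := aa_small
  obtain ⟨δ3, C3, hδ3, hC3, hp3⟩ := main_q (η ^ 2 / 16) (by positivity)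
  obtain ⟨C4, X4, hC4, hX4, hp4⟩ := win (η / 4) (by positivity) (by linarith)
  set δ : ℝ := min (min δ3 (1 / 60)) (η / 32) with hδ
  have hd1 : δ ≤ δ3 := (min_le_left _ _).trans (min_le_left _ _)
  have hd2 : δ ≤ 1 / 60 := (min_le_left _ _).trans (min_le_right _ _)
  have hd3 : δ ≤ η / 32 := min_le_right _ _
  have hd0 : 0 < δ := lt_min (lt_min hδ3 (by norm_num)) (by positivity)
  refine ⟨δ, (C1 + C2 + C3 + C4) + (X2 + X4 + 2), hd0, by linarith, ?_⟩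
  intro x
  rcases Nat.eq_zero_or_pos x with h0 | h0
  · subst h0
    have : RR 0 ε = ∅ := by unfold RR; simp
    rw [this]
    simp only [card_empty, Nat.cast_zero]
    have : 0 ≤ (C1 + C2 + C3 + C4) + (X2 + X4 + 2) := by linarith
    positivity
  have hX1 : (1 : ℝ) ≤ (x : ℝ) := by exact_mod_cast h0
  have hw1 : 1 ≤ (x : ℝ) ^ (1 / 2 - δ) := Real.one_le_rpow hX1 (by linarith)
  obtain ⟨w, hw⟩ : ∃ w : ℝ, w = (x : ℝ) ^ (1 / 2 - δ) := ⟨_, rfl⟩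
  rw [← hw] at hw1 ⊢
  rcases le_or_gt (X2 + X4 + 2) (x : ℝ) with h1 | h1
  · have hx2 : 2 ≤ x := by
      have : (2 : ℝ) ≤ (x : ℝ) := by linarith
      exact_mod_cast this
    have hsub := card_le_card (RR_sub ε η hη hη1 hηε x hx2)
    have hsub2 := hsub.trans ((card_union_le _ _).trans
      (Nat.add_le_add (card_union_le _ _) (card_union_le _ _)))
    have hsub3 : ((RR x ε).card : ℝ) ≤
        ((((Icc 1 ⌊(x : ℝ) ^ (1 - η / 8)⌋₊).filter Leh).card : ℕ) : ℝ) +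
        ((Pool.Agent.TH43.LK.AA x ⌊(x : ℝ) ^ (3 / 10 : ℝ)⌋₊).card : ℝ) +
        (((QQ x (η ^ 2 / 16)).card : ℝ) + ((WB x (η / 4)).card : ℝ)) := by
      exact_mod_cast hsub2
    have e1 : ((((Icc 1 ⌊(x : ℝ) ^ (1 - η / 8)⌋₊).filter Leh).card : ℕ) : ℝ) ≤ C1 * w := by
      refine (hp1 x h0).trans ?_
      rw [hw]
      exact mul_le_mul_of_nonneg_left (Real.rpow_le_rpow_of_exponent_le hX1 (by linarith)) hC1.le
    have e2 : ((Pool.Agent.TH43.LK.AA x ⌊(x : ℝ) ^ (3 / 10 : ℝ)⌋₊).card : ℝ) ≤ C2 * w := by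
      refine (hp2 x (by linarith)).trans ?_
      rw [hw]
      exact mul_le_mul_of_nonneg_left (Real.rpow_le_rpow_of_exponent_le hX1 (by linarith)) hC2.le
    have e3 : ((QQ x (η ^ 2 / 16)).card : ℝ) ≤ C3 * w := by
      refine (hp3 x).trans ?_
      rw [hw]
      exact mul_le_mul_of_nonneg_left (Real.rpow_le_rpow_of_exponent_le hX1 (by linarith)) hC3.le
    have e4 : ((WB x (η / 4)).card : ℝ) ≤ C4 * w := by
      refine (hp4 x (by linarith)).trans ?_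
      rw [hw]
      exact mul_le_mul_of_nonneg_left (Real.rpow_le_rpow_of_exponent_le hX1 (by linarith)) hC4.le
    have e5 : 0 ≤ (X2 + X4 + 2) * w := mul_nonneg (by linarith) (by linarith)
    calc ((RR x ε).card : ℝ) ≤ C1 * w + C2 * w + (C3 * w + C4 * w) := by linarith
      _ ≤ (C1 + C2 + C3 + C4 + (X2 + X4 + 2)) * w := by linarith
  · have h2 : (RR x ε).card ≤ x := by
      unfold RR
      refine (card_filter_le _ _).trans ?_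
      simp
    have h3 : ((RR x ε).card : ℝ) ≤ (x : ℝ) := Nat.cast_le.2 h2
    have h4 : X2 + X4 + 2 ≤ (X2 + X4 + 2) * w := le_mul_of_one_le_right (by linarith) hw1
    have h5 : 0 ≤ (C1 + C2 + C3 + C4) * w := mul_nonneg (by linarith) (by linarith)
    calc ((RR x ε).card : ℝ) ≤ (C1 + C2 + C3 + C4) * w + (X2 + X4 + 2) * w := by linarith
      _ = _ := by ring

end Pool.Agent.TH43.LR
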